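import Mathlib
import Pool.Agent.Lib.MP_98022b_UM.RFSDefs
import Pool.Agent.Lib.MP_98022b_UM.DGL

/-! TANK UP, row R12: resolutions of any finite length, and the complex to be attached. -/

open MonoidAlgebra

namespace Pool.Agent.Lib.MP_98022b_UP

open Pool.Agent.Lib.MP_98022b_UN Pool.Agent.Lib.MP_98022b_UM

universe u v w w'

section
variable {A : Type u} {Ω : Type w} {G : Type v} [CommRing A] [Group G]

/-- the row space of `D` has a resolution of length `n` by finitely generated free modules, with a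
projective module on top -/
def PDle (F : Subgroup G) : ℕ → ∀ {J K : Type} [Fintype J] [Fintype K],
    Matrix J K (MonoidAlgebra A G) → Prop
  | 0, J, _, _, _, D => ∃ P : Matrix J J (MonoidAlgebra A G), OnF F P ∧ P * D = D ∧ Fnl D P
  | n + 1, J, _, _, _, D => ∃ (c : ℕ) (ζ : Matrix (Fin c) J (MonoidAlgebra A G)),
      OnF F ζ ∧ GenL ζ D ∧ PDle F n ζ

/-- `PDle` depends only on the relations between the rows -/
theorem PDle.congr {F : Subgroup G} {J K K' : Type} [Fintype J] [Fintype K] [Fintype K']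
    {D : Matrix J K (MonoidAlgebra A G)} {D' : Matrix J K' (MonoidAlgebra A G)}
    (h : ∀ {c : Type} (N : Matrix c J (MonoidAlgebra A G)), N * D = 0 ↔ N * D' = 0) {n : ℕ}
    (hD : PDle F n D) : PDle F n D' := by
  classical
  cases n with
  | zero =>
    obtain ⟨P, hP, hPD, hf⟩ := hD
    refine ⟨P, hP, ?_, fun κ hκ => hf κ ((h κ).2 hκ)⟩
    have h1 : (P - 1) * D = 0 := by rw [Matrix.sub_mul, Matrix.one_mul, hPD, sub_self]
    have h2 := (h _).1 h1
    rwa [Matrix.sub_mul, Matrix.one_mul, sub_eq_zero] at h2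
  | succ n =>
    obtain ⟨c, ζ, hζ, hg, hn⟩ := hD
    exact ⟨c, ζ, hζ, ⟨(h ζ).1 hg.1, fun x hx => hg.2 x ((h x).2 hx)⟩, hn⟩

variable {E : BSys Ω G} {β : BarStr A G} {ε : ℤ}

/-- a complex to be attached, without the condition on the dual, with exactness in the degrees of
the set `S` -/
structure PreK (X : DGF E β ε) (ω : Ω) (a : ℤ) (S : Set ℕ) where
  C : Type
  [fin : Fintype C]
  [dec : DecidableEq C]
  p : C → ℕ
  e : Matrix C C (MonoidAlgebra A G)
  δ : Matrix C C (MonoidAlgebra A G)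
  f : Matrix C X.K (MonoidAlgebra A G)
  e_on : OnF (E.F ω) e
  δ_on : OnF (E.F ω) δ
  f_on : On0 E (fun _ => ω) X.t f
  e_deg : ∀ i j, e i j ≠ 0 → p i = p j
  δ_deg : ∀ i j, δ i j ≠ 0 → p i = p j + 1
  f_deg : ∀ i k, f i k ≠ 0 → X.deg k = a + p i
  ee : e * e = e
  eδ : e * δ = δ
  δe : δ * e = δ
  δδ : δ * δ = 0
  ef : e * f = f
  fe : f * X.e = f
  δf : δ * f + f * X.d = 0
  rowex : ∀ l ∈ S, ∀ (u : Matrix Unit C (MonoidAlgebra A G)), (∀ i, u () i ≠ 0 → p i = l) →
    u * e = u → u * δ = 0 → (∃ x : Matrix Unit X.K (MonoidAlgebra A G), u * f = x * X.d) →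
    ∃ u' : Matrix Unit C (MonoidAlgebra A G), u = u' * δ

attribute [instance] PreK.fin PreK.dec

/-- the complex resolves the submodule generated by the rows of `V` -/
def PreK.Res {X : DGF E β ε} {ω : Ω} {a : ℤ} {S : Set ℕ} (κ : PreK X ω a S) {C₀ : Type}
    [Fintype C₀] (V : Matrix C₀ X.K (MonoidAlgebra A G)) : Prop :=
  (∃ (U : Matrix κ.C C₀ (MonoidAlgebra A G)) (Y : Matrix κ.C X.K (MonoidAlgebra A G)),
    ∀ i, κ.p i = 0 → ∀ k, κ.f i k = (U * V + Y * X.d) i k) ∧
  (∃ (U : Matrix C₀ κ.C (MonoidAlgebra A G)) (Y : Matrix C₀ X.K (MonoidAlgebra A G)),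
    (∀ j i, U j i ≠ 0 → κ.p i = 0) ∧ V = U * κ.f + Y * X.d)

variable {X : DGF E β ε} {ω : Ω} {a : ℤ} {C₀ : Type} [Fintype C₀]
  {V : Matrix C₀ X.K (MonoidAlgebra A G)}

private theorem kill_diag (t : X.K → Ω) (i : ℤ) :
    On0 E t t (Matrix.diagonal (fun k : X.K => if X.deg k = i then (1 : MonoidAlgebra A G) else 0)) := by
  classical
  intro j k g hg
  by_cases hjk : j = k
  · subst hjk
    refine ⟨?_, rfl⟩
    rw [Matrix.diagonal_apply_eq] at hg
    split_ifs at hg with h1
    · by_cases hg1 : g = 1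
      · rw [hg1]
        exact (E.F _).one_mem
      · exfalso
        apply hg
        rw [MonoidAlgebra.one_def, MonoidAlgebra.coeff_single, Finsupp.single_apply,
          if_neg (fun h' => hg1 h'.symm)]
    · exfalso
      exact hg rfl
  · exfalso
    rw [Matrix.diagonal_apply_ne _ hjk] at hg
    exact hg rfl

/-- normalised and typed chains -/
theorem kill_norm {c : Type} {i : ℤ} {x : Matrix c X.K (MonoidAlgebra A G)}
    (hx : X.Bd true x) (hon : On0 E (fun _ => ω) X.t x) (hdeg : ∀ j k, x j k ≠ 0 → X.deg k = i) :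
    ∃ y : Matrix c X.K (MonoidAlgebra A G), x + y * X.d = 0 ∧ y * X.e = y ∧
      (∀ j k, y j k ≠ 0 → X.deg k = i + 1) ∧ On0 E (fun _ => ω) X.t y := by
  classical
  obtain ⟨y, hy, hye, hyd⟩ := hx.norm (i := i) hdeg
  set π : Matrix X.K X.K (MonoidAlgebra A G) :=
    Matrix.diagonal (fun k : X.K => if X.deg k = i + 1 then (1 : MonoidAlgebra A G) else 0) with hπ
  have hyπ : y * π = y := by
    funext j k
    rw [hπ, Matrix.mul_diagonal]
    split_ifs with h1
    · rw [mul_one]
    · rw [mul_zero]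
      by_contra h2
      exact h1 (hyd j k (fun h3 => h2 h3.symm))
  have hpe : On0 E X.t X.t (π * X.e) := (kill_diag X.t (i + 1)).mul X.e_on
  have hz : On0 E X.t X.t (π * X.e * X.d) := hpe.mul X.d_on
  have hye' : y * X.e = y := hye
  have h1 : x = y * (π * X.e * X.d) := by
    rw [← Matrix.mul_assoc, ← Matrix.mul_assoc, hyπ, hye']
    exact hy
  obtain ⟨κ, hκ, hκx⟩ := On0.exists_left hz hon h1
  have hpe_deg : ∀ k k', (π * X.e) k k' ≠ 0 → X.deg k' = i + 1 := by
    intro k k' hk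
    rw [hπ, Matrix.diagonal_mul] at hk
    split_ifs at hk with h2
    · rw [one_mul] at hk
      rw [← X.e_deg k k' hk, h2]
    · exact absurd (zero_mul _) hk
  refine ⟨-(κ * (π * X.e)), ?_, ?_, ?_, ?_⟩
  · rw [hκx, Matrix.neg_mul, ← Matrix.mul_assoc]
    exact add_neg_cancel _
  · rw [Matrix.neg_mul, Matrix.mul_assoc, Matrix.mul_assoc, X.ee]
  · intro j k hjk
    have h2 : (κ * (π * X.e)) j k ≠ 0 := by
      intro h3
      apply hjk
      rw [Matrix.neg_apply, h3, neg_zero]
    rw [Matrix.mul_apply] at h2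
    obtain ⟨l, _, hl⟩ := Finset.exists_ne_zero_of_sum_ne_zero h2
    exact hpe_deg l k (right_ne_zero_of_mul hl)
  · exact (hκ.mul hpe).neg

theorem kill_muldeg {c c' K : Type} [Fintype c'] {dg : K → ℤ} (N : Matrix c c' (MonoidAlgebra A G))
    {y : Matrix c' K (MonoidAlgebra A G)} {i : ℤ} (hy : ∀ j k, y j k ≠ 0 → dg k = i) :
    ∀ j k, (N * y) j k ≠ 0 → dg k = i := by
  intro j k hjk
  rw [Matrix.mul_apply] at hjk
  obtain ⟨l, _, hl⟩ := Finset.exists_ne_zero_of_sum_ne_zero hjk
  exact hy l k (right_ne_zero_of_mul hl)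

theorem kill_rows_add {m₁ m₂ n S : Type*} [Add S] (a c : Matrix m₁ n S) (b d : Matrix m₂ n S) :
    Matrix.fromRows a b + Matrix.fromRows c d = Matrix.fromRows (a + c) (b + d) := by
  ext (i | i) j <;> simp

/-- the data of a new layer of a complex -/
structure Layer {S : Set ℕ} (κ : PreK X ω a S) (m : ℕ) (c : ℕ) where
  W : Matrix (Fin c) κ.C (MonoidAlgebra A G)
  P : Matrix (Fin c) (Fin c) (MonoidAlgebra A G)
  g : Matrix (Fin c) X.K (MonoidAlgebra A G)
  W_on : OnF (E.F ω) W
  P_on : OnF (E.F ω) P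
  g_on : On0 E (fun _ => ω) X.t g
  W_deg : ∀ j i, W j i ≠ 0 → κ.p i = m
  g_deg : ∀ j k, g j k ≠ 0 → X.deg k = a + (m + 1 : ℕ)
  PP : P * P = P
  PW : P * W = W
  We : W * κ.e = W
  Wδ : W * κ.δ = 0
  Pg : P * g = g
  ge : g * X.e = g
  Wf : W * κ.f + g * X.d = 0
  p_le : ∀ i, κ.p i ≤ m
  gen : ∀ u : Matrix Unit κ.C (MonoidAlgebra A G), (∀ i, u () i ≠ 0 → κ.p i = m) →
    u * κ.e = u → u * κ.δ = 0 → (∃ x : Matrix Unit X.K (MonoidAlgebra A G), u * κ.f = x * X.d) →
    ∃ v : Matrix Unit (Fin c) (MonoidAlgebra A G), u = v * W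

omit [Group G] in
theorem kill_dec {c I J : Type} (u : Matrix c (I ⊕ J) (MonoidAlgebra A G)) :
    u = Matrix.fromCols (fun i j => u i (.inl j)) (fun i j => u i (.inr j)) := by
  ext i (j | j) <;> rfl

theorem kill_top {I J : Type} (u : Matrix Unit (I ⊕ J) (MonoidAlgebra A G))
    (h : ∀ i : I, u () (.inl i) = 0) : ∃ v : Matrix Unit J (MonoidAlgebra A G),
    u = Matrix.fromCols 0 v := by
  refine ⟨fun i j => u i (.inr j), ?_⟩
  ext1 i j
  rcases j with j | j
  · exact h j
  · rfl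

/-- the complex extended by the new layer, exact in the degrees up to `m` -/
noncomputable def Layer.ext {m c : ℕ} {κ : PreK X ω a {l | l < m}} (L : Layer κ m c) :
    PreK X ω a {l | l < m + 1} where
  C := κ.C ⊕ Fin c
  p := Sum.elim κ.p (fun _ => m + 1)
  e := Matrix.fromBlocks κ.e 0 0 L.P
  δ := Matrix.fromBlocks κ.δ 0 L.W 0
  f := Matrix.fromRows κ.f L.g
  e_on := by
    rintro (i | i) (j | j) g hg
    · exact κ.e_on i j g hg
    · exact absurd rfl hg
    · exact absurd rfl hg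
    · exact L.P_on i j g hg
  δ_on := by
    rintro (i | i) (j | j) g hg
    · exact κ.δ_on i j g hg
    · exact absurd rfl hg
    · exact L.W_on i j g hg
    · exact absurd rfl hg
  f_on := by
    rintro (i | i) j g hg
    · exact κ.f_on i j g hg
    · exact L.g_on i j g hg
  e_deg := by
    rintro (i | i) (j | j) h
    · exact κ.e_deg i j h
    · exact absurd rfl h
    · exact absurd rfl h
    · rfl
  δ_deg := by
    rintro (i | i) (j | j) h
    · exact κ.δ_deg i j h
    · exact absurd rfl h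
    · show m + 1 = κ.p j + 1
      rw [L.W_deg i j h]
    · exact absurd rfl h
  f_deg := by
    rintro (i | i) k h
    · exact κ.f_deg i k h
    · exact L.g_deg i k h
  ee := by simp [Matrix.fromBlocks_multiply, κ.ee, L.PP]
  eδ := by simp [Matrix.fromBlocks_multiply, κ.eδ, L.PW]
  δe := by simp [Matrix.fromBlocks_multiply, κ.δe, L.We]
  δδ := by simp [Matrix.fromBlocks_multiply, κ.δδ, L.Wδ]
  ef := by simp [Matrix.fromBlocks_mul_fromRows, κ.ef, L.Pg]
  fe := by simp [Matrix.fromRows_mul, κ.fe, L.ge]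
  δf := by
    rw [Matrix.fromBlocks_mul_fromRows, Matrix.fromRows_mul, kill_rows_add, Matrix.zero_mul,
      Matrix.zero_mul, add_zero, add_zero, κ.δf, L.Wf]
    exact Matrix.fromRows_zero
  rowex := by
    intro l hl u hu hue hud huf
    obtain ⟨x, hx⟩ := huf
    have hl' : l < m + 1 := hl
    rw [kill_dec u] at hue hud hx ⊢
    set u₁ : Matrix Unit κ.C (MonoidAlgebra A G) := fun i j => u i (.inl j) with hu1
    set u₂ : Matrix Unit (Fin c) (MonoidAlgebra A G) := fun i j => u i (.inr j) with hu2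
    have z2 : u₂ = 0 := by
      refine Matrix.ext fun i j => ?_
      by_contra h3
      have h4 : m + 1 = l := hu (.inr j) h3
      omega
    rw [z2] at hue hud hx ⊢
    rw [Matrix.fromCols_mul_fromBlocks, Matrix.zero_mul, Matrix.zero_mul, Matrix.mul_zero,
      add_zero, add_zero, Matrix.fromCols_ext_iff] at hue
    rw [Matrix.fromCols_mul_fromBlocks, Matrix.zero_mul, Matrix.zero_mul, Matrix.mul_zero,
      add_zero, add_zero, ← Matrix.fromCols_zero, Matrix.fromCols_ext_iff] at hud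
    rw [Matrix.fromCols_mul_fromRows, Matrix.zero_mul, add_zero] at hx
    by_cases hlm : l < m
    · obtain ⟨u', hu'⟩ := κ.rowex l hlm u₁ (fun i hi => hu (.inl i) hi) hue.1 hud.1 ⟨x, hx⟩
      refine ⟨Matrix.fromCols u' 0, ?_⟩
      rw [Matrix.fromCols_mul_fromBlocks, Matrix.zero_mul, Matrix.zero_mul, Matrix.mul_zero,
        add_zero, add_zero, ← hu']
    · have hlm' : l = m := by omega
      subst hlm'
      obtain ⟨v, hv⟩ := L.gen u₁ (fun i hi => hu (.inl i) hi) hue.1 hud.1 ⟨x, hx⟩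
      refine ⟨Matrix.fromCols 0 v, ?_⟩
      rw [Matrix.fromCols_mul_fromBlocks, Matrix.zero_mul, Matrix.zero_mul, Matrix.mul_zero,
        zero_add, add_zero, ← hv]

/-- change of the set of degrees -/
def PreK.upg {S S' : Set ℕ} (κ : PreK X ω a S) (h : ∀ l ∈ S', ∀ (u : Matrix Unit κ.C
      (MonoidAlgebra A G)), (∀ i, u () i ≠ 0 → κ.p i = l) →
    u * κ.e = u → u * κ.δ = 0 → (∃ x : Matrix Unit X.K (MonoidAlgebra A G), u * κ.f = x * X.d) →
    ∃ u' : Matrix Unit κ.C (MonoidAlgebra A G), u = u' * κ.δ) : PreK X ω a S' :=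
  { κ with rowex := h }

/-- the extension still resolves `V` -/
theorem Layer.ext_res {m c : ℕ} {κ : PreK X ω a {l | l < m}} (L : Layer κ m c)
    (h : κ.Res V) : L.ext.Res V := by
  obtain ⟨⟨U, Y, h1⟩, U', Y', h2, h3⟩ := h
  have e1 : ∀ (i : κ.C) (k : X.K), ((Matrix.fromRows U 0 :
      Matrix (κ.C ⊕ Fin c) C₀ (MonoidAlgebra A G)) * V +
      (Matrix.fromRows Y 0 : Matrix (κ.C ⊕ Fin c) X.K (MonoidAlgebra A G)) * X.d) (.inl i) k =
      (U * V + Y * X.d) i k := by
    intro i k
    rw [Matrix.fromRows_mul, Matrix.fromRows_mul]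
    rfl
  have e2 : V = (Matrix.fromCols U' 0 : Matrix C₀ (κ.C ⊕ Fin c) (MonoidAlgebra A G)) *
      Matrix.fromRows κ.f L.g + Y' * X.d := by
    rw [Matrix.fromCols_mul_fromRows, Matrix.zero_mul, add_zero]
    exact h3
  refine ⟨⟨Matrix.fromRows U 0, Matrix.fromRows Y 0, ?_⟩, Matrix.fromCols U' 0, Y', ?_, e2⟩
  · rintro (i | i) hi k
    · exact (h1 i hi k).trans (e1 i k).symm
    · exact absurd hi (Nat.succ_ne_zero m)
  · rintro j (i | i) hi
    · exact h2 j i hi
    · exact absurd rfl hi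

/-- the boundaries of a cycle of positive degree -/
theorem layer_bd {m : ℕ} {κ : PreK X ω a {l | l < m}} (hL : X.Lev a) {c c' : ℕ}
    (L : Layer κ m c) (ζ : Matrix (Fin c') (Fin c) (MonoidAlgebra A G)) (hζ : ζ * L.W = 0) :
    X.Bd true (ζ * L.g) := by
  refine (hL true (a + (m + 1 : ℕ)) (by push_cast; omega)).mat ⟨?_, ?_, ?_⟩
  · exact kill_muldeg ζ L.g_deg
  · show ζ * L.g * X.e = ζ * L.g
    rw [Matrix.mul_assoc, L.ge]
  · show ζ * L.g * X.d = 0
    have h1 : L.g * X.d = -(L.W * κ.f) := eq_neg_of_add_eq_zero_right L.Wf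
    rw [Matrix.mul_assoc, h1, Matrix.mul_neg, ← Matrix.mul_assoc, hζ, Matrix.zero_mul, neg_zero]

/-- the data from which the next layers are built -/
structure Gens {S : Set ℕ} (κ : PreK X ω a S) (m : ℕ) (c : ℕ)
    (W : Matrix (Fin c) κ.C (MonoidAlgebra A G)) : Prop where
  W_on : OnF (E.F ω) W
  W_deg : ∀ j i, W j i ≠ 0 → κ.p i = m
  We : W * κ.e = W
  Wδ : W * κ.δ = 0
  bd : X.Bd true (W * κ.f)
  p_le : ∀ i, κ.p i ≤ m
  gen : ∀ u : Matrix Unit κ.C (MonoidAlgebra A G), (∀ i, u () i ≠ 0 → κ.p i = m) →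
    u * κ.e = u → u * κ.δ = 0 → (∃ x : Matrix Unit X.K (MonoidAlgebra A G), u * κ.f = x * X.d) →
    ∃ v : Matrix Unit (Fin c) (MonoidAlgebra A G), u = v * W

/-- a layer with given generators -/
theorem Gens.layer {S : Set ℕ} {κ : PreK X ω a S} {m c : ℕ}
    {W : Matrix (Fin c) κ.C (MonoidAlgebra A G)} (h : Gens κ m c W)
    {P : Matrix (Fin c) (Fin c) (MonoidAlgebra A G)} (hP : OnF (E.F ω) P) (hPP : P * P = P)
    (hPW : P * W = W) : ∃ L : Layer κ m c, L.W = W ∧ L.P = P := by
  obtain ⟨g, h1, h2, h3, h4⟩ := kill_norm h.bd ((OnF.on0 h.W_on).mul κ.f_on)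
    (i := a + m) (fun j k hjk => by
      rw [Matrix.mul_apply] at hjk
      obtain ⟨l, _, hl⟩ := Finset.exists_ne_zero_of_sum_ne_zero hjk
      rw [κ.f_deg l k (right_ne_zero_of_mul hl), h.W_deg j l (left_ne_zero_of_mul hl)])
  refine ⟨{
    W := W
    P := P
    g := P * g
    W_on := h.W_on
    P_on := hP
    g_on := (OnF.on0 hP).mul h4
    W_deg := h.W_deg
    g_deg := fun j k hjk => by
      rw [kill_muldeg P h3 j k hjk]
      push_cast
      ring
    PP := hPP
    PW := hPW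
    We := h.We
    Wδ := h.Wδ
    Pg := by rw [← Matrix.mul_assoc, hPP]
    ge := by rw [Matrix.mul_assoc, h2]
    Wf := ?_
    p_le := h.p_le
    gen := h.gen }, rfl, rfl⟩
  have h5 : W * κ.f = -(g * X.d) := eq_neg_of_add_eq_zero_left h1
  have h6 : W * κ.f = P * (W * κ.f) := by rw [← Matrix.mul_assoc, hPW]
  rw [h6, h5, Matrix.mul_neg, Matrix.mul_assoc]
  exact neg_add_cancel _

/-- the next layers -/
theorem attach (hL : X.Lev a) (n : ℕ) : ∀ (m : ℕ) (κ : PreK X ω a {l | l < m}) (c : ℕ)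
    (W : Matrix (Fin c) κ.C (MonoidAlgebra A G)), Gens κ m c W → PDle (E.F ω) n W → κ.Res V →
    ∃ κ' : PreK X ω a Set.univ, κ'.Res V := by
  classical
  induction n with
  | zero =>
    intro m κ c W hW hn hV
    obtain ⟨P, hP, hPW, hf⟩ := hn
    have hPP : P * P = P := by
      let R : Fin c → Matrix Unit (Fin c) (MonoidAlgebra A G) := fun j _ k => (P - 1) j k
      have h1 : ∀ j, R j * P = 0 := by
        intro j
        apply hf
        have h2 : (P - 1) * W = 0 := by
          rw [Matrix.sub_mul, Matrix.one_mul, hPW, sub_self]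
        funext u k
        have h3 := congrFun (congrFun h2 j) k
        rw [Matrix.mul_apply] at h3 ⊢
        exact h3
      have h2 : (P - 1) * P = 0 := by
        funext j k
        have h3 := congrFun (congrFun (h1 j) ()) k
        rw [Matrix.mul_apply] at h3 ⊢
        exact h3
      rw [Matrix.sub_mul, Matrix.one_mul] at h2
      exact sub_eq_zero.1 h2
    obtain ⟨L, hLW, hLP⟩ := hW.layer hP hPP hPW
    refine ⟨L.ext.upg ?_, L.ext_res hV⟩
    intro l _ u hu hue hud huf
    by_cases hl : l < m + 1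
    · exact L.ext.rowex l hl u hu hue hud huf
    · have e1 : u = (0 : Matrix Unit (κ.C ⊕ Fin c) (MonoidAlgebra A G)) := by
        obtain ⟨v, hv⟩ := kill_top (I := κ.C) (J := Fin c) u (by
          intro i
          by_contra hi
          have h1 : κ.p i = l := hu (.inl i) hi
          have h2 := L.p_le i
          omega)
        have hue' : (Matrix.fromCols 0 v :
            Matrix Unit (κ.C ⊕ Fin c) (MonoidAlgebra A G)) * Matrix.fromBlocks κ.e 0 0 L.P =
            Matrix.fromCols 0 v := by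
          rw [← hv]
          exact hue
        have hud' : (Matrix.fromCols 0 v :
            Matrix Unit (κ.C ⊕ Fin c) (MonoidAlgebra A G)) * Matrix.fromBlocks κ.δ 0 L.W 0 =
            (0 : Matrix Unit (κ.C ⊕ Fin c) (MonoidAlgebra A G)) := by
          rw [← hv]
          exact hud
        rw [Matrix.fromCols_mul_fromBlocks, Matrix.zero_mul, Matrix.zero_mul, Matrix.mul_zero,
          zero_add, zero_add, Matrix.fromCols_ext_iff] at hue'
        rw [Matrix.fromCols_mul_fromBlocks, Matrix.zero_mul, Matrix.zero_mul, Matrix.mul_zero,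
          zero_add, zero_add, ← Matrix.fromCols_zero, Matrix.fromCols_ext_iff] at hud'
        have z2 : v = 0 := by
          rw [← hue'.2, hLP]
          rw [hLW] at hud'
          exact hf _ hud'.1
        rw [hv, z2, Matrix.fromCols_zero]
      refine ⟨(0 : Matrix Unit (κ.C ⊕ Fin c) (MonoidAlgebra A G)), ?_⟩
      rw [e1]
      exact (Matrix.zero_mul _).symm
  | succ n ih =>
    intro m κ c W hW hn hV
    obtain ⟨c', ζ, hζ, hg, hn'⟩ := hn
    obtain ⟨L, hLW, hLP⟩ := hW.layer (P := 1) (OnF.one _) (Matrix.one_mul 1) (Matrix.one_mul W)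
    have hg1 : ζ * L.W = 0 := by rw [hLW]; exact hg.1
    refine ih (m + 1) L.ext c' (Matrix.fromCols (0 : Matrix (Fin c') κ.C (MonoidAlgebra A G)) ζ)
      ?_ ?_ (L.ext_res hV)
    · refine ⟨?_, ?_, ?_, ?_, ?_, ?_, ?_⟩
      · rintro i (j | j) g hg
        · exact absurd rfl hg
        · exact hζ i j g hg
      · rintro i (j | j) h
        · exact absurd rfl h
        · rfl
      · show (Matrix.fromCols 0 ζ : Matrix (Fin c') (κ.C ⊕ Fin c) (MonoidAlgebra A G)) *
          Matrix.fromBlocks κ.e 0 0 L.P = Matrix.fromCols 0 ζ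
        rw [Matrix.fromCols_mul_fromBlocks, hLP]
        simp
      · show (Matrix.fromCols 0 ζ : Matrix (Fin c') (κ.C ⊕ Fin c) (MonoidAlgebra A G)) *
          Matrix.fromBlocks κ.δ 0 L.W 0 = 0
        rw [Matrix.fromCols_mul_fromBlocks, hg1]
        simp
      · have h1 : (Matrix.fromCols 0 ζ : Matrix (Fin c') (κ.C ⊕ Fin c) (MonoidAlgebra A G)) *
            Matrix.fromRows κ.f L.g = ζ * L.g := by
          rw [Matrix.fromCols_mul_fromRows, Matrix.zero_mul, zero_add]
        show X.Bd true ((Matrix.fromCols 0 ζ : Matrix (Fin c') (κ.C ⊕ Fin c)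
          (MonoidAlgebra A G)) * Matrix.fromRows κ.f L.g)
        rw [h1]
        exact layer_bd hL L ζ hg1
      · rintro (i | i)
        · exact (L.p_le i).trans (Nat.le_succ m)
        · exact le_rfl
      · intro u hu _ hud _
        obtain ⟨v, hv⟩ := kill_top (I := κ.C) (J := Fin c) u (by
          intro i
          by_contra hi
          have h1 : κ.p i = m + 1 := hu (.inl i) hi
          have h2 := L.p_le i
          omega)
        have hud' : (Matrix.fromCols 0 v :
            Matrix Unit (κ.C ⊕ Fin c) (MonoidAlgebra A G)) * Matrix.fromBlocks κ.δ 0 L.W 0 =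
            (0 : Matrix Unit (κ.C ⊕ Fin c) (MonoidAlgebra A G)) := by
          rw [← hv]
          exact hud
        rw [Matrix.fromCols_mul_fromBlocks, Matrix.zero_mul, Matrix.zero_mul, Matrix.mul_zero,
          zero_add, zero_add, ← Matrix.fromCols_zero, Matrix.fromCols_ext_iff, hLW] at hud'
        obtain ⟨v', hv'⟩ := hg.2 v hud'.1
        have e3 : (Matrix.fromCols 0 v : Matrix Unit (κ.C ⊕ Fin c) (MonoidAlgebra A G)) =
            v' * Matrix.fromCols 0 ζ := by
          rw [hv', Matrix.mul_fromCols, Matrix.mul_zero]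
        exact ⟨v', hv.trans e3⟩
    · have h1 : ∀ {c'' : Type} (N : Matrix c'' (Fin c') (MonoidAlgebra A G)), N * ζ = 0 ↔
          N * (Matrix.fromCols 0 ζ : Matrix (Fin c') (κ.C ⊕ Fin c) (MonoidAlgebra A G)) = 0 := by
        intro c'' N
        rw [Matrix.mul_fromCols, Matrix.mul_zero]
        constructor
        · intro h
          rw [h]
          exact Matrix.fromCols_zero
        · intro h
          rw [← Matrix.fromCols_zero, Matrix.fromCols_ext_iff] at h
          exact h.2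
      exact PDle.congr (D := ζ) h1 hn'

/-- **resolutions of any finite length** -/
theorem exists_preK (h1 : ∀ (J K : Type) [Fintype J] [Fintype K]
      (D : Matrix J K (MonoidAlgebra A G)), OnF (E.F ω) D →
      ∃ (n : ℕ) (ζ : Matrix (Fin n) J (MonoidAlgebra A G)), OnF (E.F ω) ζ ∧ GenL ζ D)
    (h2 : ∀ (J K : Type) [Fintype J] [Fintype K] (D : Matrix J K (MonoidAlgebra A G)),
      OnF (E.F ω) D → ∃ n, PDle (E.F ω) n D)
    (hL : X.Lev a) (hV : On0 E (fun _ => ω) X.t V) (hc : X.Cyc true a V) :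
    ∃ κ : PreK X ω a Set.univ, κ.Res V := by
  classical
  obtain ⟨hVdeg, hVe, hVd⟩ := hc
  replace hVdeg : ∀ j k, V j k ≠ 0 → X.deg k = a := hVdeg
  replace hVe : V * X.e = V := hVe
  replace hVd : V * X.d = 0 := hVd
  let κ₀ : PreK X ω a {l | l < 0} :=
    { C := C₀
      p := fun _ => 0
      e := 1
      δ := 0
      f := V
      e_on := OnF.one _
      δ_on := fun i j g hg => absurd rfl hg
      f_on := hV
      e_deg := fun _ _ _ => rfl
      δ_deg := fun i j h => absurd rfl h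
      f_deg := fun i k h => by rw [hVdeg i k h]; simp
      ee := Matrix.one_mul 1
      eδ := Matrix.mul_zero 1
      δe := Matrix.zero_mul 1
      δδ := Matrix.mul_zero 0
      ef := Matrix.one_mul V
      fe := hVe
      δf := by rw [hVd, Matrix.zero_mul, add_zero]
      rowex := fun l hl => absurd hl (Nat.not_lt_zero l) }
  have hprd : On0 E (fun _ => ω) X.t (pr A G X.t ω * X.d) := X.d_on.pr_mul_onF ω
  have hDon : OnF (E.F ω) (Matrix.fromRows V (pr A G X.t ω * X.d)) := by
    intro j k g hg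
    rcases j with j | j
    · exact hV.onF j k g hg
    · exact hprd.onF j k g hg
  obtain ⟨c, W, hWon, hW0, hWg⟩ := h1 _ _ _ hDon
  have hD1on : OnF (E.F ω) W.toCols₁ := fun j k g hg => hWon j (Sum.inl k) g hg
  have hW1 : W.toCols₁ * V + W.toCols₂ * (pr A G X.t ω * X.d) = 0 := by
    rw [← Matrix.fromCols_mul_fromRows, Matrix.fromCols_toCols]
    exact hW0
  have hBd1 : X.Bd true (W.toCols₁ * V) := by
    refine ⟨-(W.toCols₂ * pr A G X.t ω), ?_⟩
    rw [DGF.dS_true, Matrix.neg_mul, Matrix.mul_assoc]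
    exact eq_neg_of_add_eq_zero_left hW1
  obtain ⟨n, hn⟩ := h2 _ _ _ hD1on
  have e1 : V = (1 : Matrix C₀ C₀ (MonoidAlgebra A G)) * V + (0 : Matrix C₀ X.K (MonoidAlgebra A G)) * X.d := by
    rw [Matrix.one_mul, Matrix.zero_mul, add_zero]
  refine attach hL n 0 κ₀ c W.toCols₁ ?_ hn ⟨⟨1, 0, fun i _ k => ?_⟩, 1, 0, fun _ _ _ => rfl, e1⟩
  · refine ⟨hD1on, fun _ _ _ => rfl, Matrix.mul_one _, Matrix.mul_zero _, hBd1, fun _ => le_rfl, ?_⟩
    intro u _ _ _ hx
    obtain ⟨x, hx⟩ := hx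
    replace hx : u * V = x * X.d := hx
    have h3 : u * V = x * (pr A G X.t ω * X.d) := by
      have h4 : V * pr A G X.t ω = V := hV.mul_pr
      have h5 : pr A G X.t ω * X.d = X.d * pr A G X.t ω := X.pr_dS ω true
      rw [h5, ← Matrix.mul_assoc, ← hx, Matrix.mul_assoc, h4]
    obtain ⟨v, hv⟩ := hWg (Matrix.fromCols u (-x)) (by
      rw [Matrix.fromCols_mul_fromRows, h3, Matrix.neg_mul]
      exact add_neg_cancel _)
    refine ⟨v, ?_⟩
    have h6 : u = (Matrix.fromCols u (-x)).toCols₁ := by rw [Matrix.toCols₁_fromCols]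
    rw [h6, hv]
    rfl
  · exact congrFun (congrFun e1 i) k

end

end Pool.Agent.Lib.MP_98022b_UP
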