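import Mathlib
import Pool.Agent.Lib.UP.TrDefs
import Pool.Agent.Lib.MP_98022b_UP.Kill
import Pool.Agent.Lib.MP_98022b_UM.ContentL

/-! TANK UP, row R13: the ring-theoretic input of the surgery from resolutions of finite length and
the Auslander condition. -/

open MonoidAlgebra

namespace Pool.Agent.Lib.MP_98022b_UP

open Pool.Agent.Lib.MP_98022b_UN Pool.Agent.Lib.MP_98022b_UM

universe u v w w'

section
variable {A : Type u} {Ω : Type w} {G : Type v} [CommRing A] [Group G] {E : BSys Ω G}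
  {β : BarStr A G} {ε : ℤ}

/-- the complex `X` in matrix form -/
theorem isCx (X : DGF E β ε) : Pool.Agent.UP.IsCx X.deg X.e X.d where
  e_deg := X.e_deg
  d_deg := X.d_deg
  ee := X.ee
  ed := X.ed
  de := X.de
  dd := X.dd

theorem PreK.isKill {X : DGF E β ε} {ω : Ω} {i₀ : ℕ} (κ : PreK X ω (-(i₀ : ℤ)) Set.univ) :
    Pool.Agent.UP.IsKill X.deg X.e X.d i₀ κ.p κ.e κ.δ κ.f where
  e_deg := κ.e_deg
  δ_deg := κ.δ_deg
  f_deg := κ.f_deg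
  ee := κ.ee
  eδ := κ.eδ
  δe := κ.δe
  δδ := κ.δδ
  ef := κ.ef
  fe := κ.fe
  δf := κ.δf
  rowex := fun l => κ.rowex l (Set.mem_univ l)

/-- a complex to be attached -/
def PreK.kill {X : DGF E β ε} {ω : Ω} {i₀ : ℕ} (κ : PreK X ω (-(i₀ : ℤ)) Set.univ)
    (h : ∀ l : ℕ, l < 2 * i₀ → Pool.Agent.UP.ColExN κ.p κ.e κ.δ l) : KillC X ω (-(i₀ : ℤ)) where
  C := κ.C
  p := κ.p
  e := κ.e
  δ := κ.δ
  f := κ.f
  e_on := κ.e_on
  δ_on := κ.δ_on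
  f_on := κ.f_on
  e_deg := κ.e_deg
  δ_deg := κ.δ_deg
  f_deg := κ.f_deg
  ee := κ.ee
  eδ := κ.eδ
  δe := κ.δe
  δδ := κ.δδ
  ef := κ.ef
  fe := κ.fe
  δf := κ.δf
  rowex := fun l => κ.rowex l (Set.mem_univ l)
  colex := fun l y hl hy hey hdy => h l (by omega) y hy hey hdy

/-- **the ring-theoretic input of the surgery** -/
theorem killHyp_of {i₀ : ℕ}
    (h1 : ∀ ω, ∀ (J K : Type) [Fintype J] [Fintype K] (D : Matrix J K (MonoidAlgebra A G)),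
      OnF (E.F ω) D → ∃ (n : ℕ) (ζ : Matrix (Fin n) J (MonoidAlgebra A G)),
        OnF (E.F ω) ζ ∧ GenL ζ D)
    (h2 : ∀ ω, ∀ (J K : Type) [Fintype J] [Fintype K] (D : Matrix J K (MonoidAlgebra A G)),
      OnF (E.F ω) D → ∃ n, PDle (E.F ω) n D)
    (h3 : ∀ (X : DGF E β ε), X.Lev (-(i₀ : ℤ)) → ∀ (ω : Ω) (C : Type) [Fintype C]
      [DecidableEq C] (p : C → ℕ) (e' δ : Matrix C C (MonoidAlgebra A G))
      (f : Matrix C X.K (MonoidAlgebra A G)), OnF (E.F ω) e' → OnF (E.F ω) δ →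
      On0 E (fun _ => ω) X.t f → Pool.Agent.UP.IsKill X.deg X.e X.d i₀ p e' δ f →
      ∀ l : ℕ, l < 2 * i₀ → Pool.Agent.UP.ColExN p e' δ l) :
    KillHyp E β ε (-(i₀ : ℤ)) := by
  classical
  intro X hL ω n b hn c
  obtain ⟨κ, hκ⟩ := exists_preK (h1 ω) (h2 ω) hL c.V_on (c.V_cyc hn)
  exact ⟨κ.kill (h3 X hL ω κ.C κ.p κ.e κ.δ κ.f κ.e_on κ.δ_on κ.f_on κ.isKill), hκ.1, hκ.2⟩

end

end Pool.Agent.Lib.MP_98022b_UP
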